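import Pool.Agent.helper77.BND.SpecY

/-!
# MP_376aaf_an: row bnd:YSU
-/

set_option autoImplicit false

open scoped Topology Matrix
open Filter

namespace Pool.Agent.BND

open Pool.Agent.CZ Pool.Agent.PV

theorem YSU (hYNG : YNG_stmt) (hYDT : YDT_stmt) (hYIN : YIN_stmt) (hDZP : DZP_stmt) (hPVS : PVS_stmt)
    (hIN0 : IN0_stmt) (hD1N : D1N_stmt) (hBOT : BOT_stmt) (hBEN : BEN_stmt) (hHON : HON_stmt)
    (hD0Y : D0Y_stmt) (hK1M : K1M_stmt) (hFUN : FUN_stmt) : YSU_stmt := by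
  intro X _ _ _ α A _ ι u c hCov xs hne AY hO z
  have hZP : ZPair (alC α) ι.toAlgHom (Unitary.toUnits u) c := hDZP X α A ι u c hCov
  have hci : Continuous ι.toAlgHom :=
    (AddMonoidHomClass.isometry_of_norm ι.toAlgHom hZP.isoA).continuous
  have hci' : Continuous ι.toAlgHom.toRingHom := hci
  have hca : Continuous (alC α : C(X, ℂ) →ₐ[ℂ] C(X, ℂ)) :=
    (AddMonoidHomClass.isometry_of_norm (alC α : C(X, ℂ) →ₐ[ℂ] C(X, ℂ)) hZP.isoB).continuous
  have hca' : Continuous (alC α : C(X, ℂ) →ₐ[ℂ] C(X, ℂ)).toRingHom := hca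
  obtain ⟨d1, d0, hd1, hd0, -, e2, -⟩ := hPVS C(X, ℂ) A (alC α) ι.toAlgHom (Unitary.toUnits u) c hci' hca' hZP
  obtain ⟨h, h', hi, cc, be, dl, de, hZL, hcc, hbe, hdl, hde, hd0z⟩ := hd0
  have hfix := (hD0Y C(X, ℂ) A (alC α) ι.toAlgHom (Unitary.toUnits u) c hZP d0
    ⟨h, h', hi, cc, be, dl, de, hZL, hcc, hbe, hdl, hde, hd0z⟩).2 hca' z
  obtain ⟨n, g, hg, hg1, hg2⟩ := hYNG X xs (α.symm xs) hne (d0 z)
  have hgfix : k1 (umap (alC α : C(X, ℂ) →ₐ[ℂ] C(X, ℂ)).toRingHom g) = k1 g := by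
    rw [hg] at hfix
    unfold k1a at hfix
    rwa [k1map_k1] at hfix
  obtain ⟨κ, _, _, E, V, V', hYD, hdeE⟩ := hYDT X α h h' xs n g hg1 hg2 hgfix
  have hcv : Continuous AY.val := continuous_subtype_val
  obtain ⟨v, vP, y, hv, hvP, hy⟩ := hYIN X α A ι u c hCov xs AY hO h h' hi hcv κ E V V' hYD
  -- the values of dl
  have hlalE : E.map (lal (alC α) h h') = V * E * V' := by
    calc E.map (lal (alC α) h h') = E.map (lal (alC α) h h') * (V * V') := by rw [hYD.l, Matrix.mul_one]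
      _ = (E.map (lal (alC α) h h') * V) * V' := by rw [Matrix.mul_assoc]
      _ = V * E * V' := by rw [hYD.conj]
  have hdlv : dl (k1 v) = k0 E hYD.idem := by
    refine hdl (κ ⊕ κ) v (k0 E hYD.idem) ((hIN0 _ _ _ _ _ _ hZL (κ ⊕ κ)).2.2 E (E * V') (V * E) hYD.idem v ?_ ?_ ?_ ?_ hv)
    · rw [← Matrix.mul_assoc, hYD.idem]
    · rw [hlalE]
      calc E * V' * (V * E * V') = E * (V' * V) * E * V' := by simp only [Matrix.mul_assoc]
        _ = E * V' := by rw [hYD.r, Matrix.mul_one, hYD.idem]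
    · calc E * V' * (V * E) = E * (V' * V) * E := by simp only [Matrix.mul_assoc]
        _ = E := by rw [hYD.r, Matrix.mul_one, hYD.idem]
    · rw [hlalE]
      calc V * E * (E * V') = V * (E * E) * V' := by simp only [Matrix.mul_assoc]
        _ = V * E * V' := by rw [hYD.idem]
  set P : Matrix (κ ⊕ κ) (κ ⊕ κ) C(UnitAddCircle, C(X, ℂ)) := Matrix.fromBlocks 1 0 0 0 with hPd
  have hPP : P * P = P := by
    rw [hPd, Matrix.fromBlocks_multiply]
    simp
  have hPmap : P.map (lal (alC α) h h') = P := by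
    rw [hPd, Matrix.fromBlocks_map]
    congr 1 <;> first
      | exact Matrix.map_one _ (map_zero _) (map_one _)
      | exact Matrix.map_zero _ (map_zero _)
  have hdlP : dl (k1 vP) = k0 P hPP := by
    refine hdl (κ ⊕ κ) vP (k0 P hPP) ((hIN0 _ _ _ _ _ _ hZL (κ ⊕ κ)).2.2 P P P hPP vP hPP ?_ hPP ?_ hvP)
    · rw [hPmap, hPP]
    · rw [hPmap, hPP]
  have hdeP : de (k0 P hPP) = 0 := by
    have hP0 : (Matrix.fromBlocks 1 0 0 0 : Matrix (κ ⊕ κ) (κ ⊕ κ) C(X, ℂ)) * Matrix.fromBlocks 1 0 0 0 =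
        Matrix.fromBlocks 1 0 0 0 := by
      rw [Matrix.fromBlocks_multiply]
      simp
    have h1 := hHON.2 C(X, ℂ) de hde (k0 _ hP0)
    have h2 : (Matrix.fromBlocks 1 0 0 0 : Matrix (κ ⊕ κ) (κ ⊕ κ) C(X, ℂ)).map (cl C(X, ℂ)).toRingHom = P := by
      rw [hPd, Matrix.fromBlocks_map]
      congr 1 <;> first
        | exact Matrix.map_one _ (map_zero _) (map_one _)
        | exact Matrix.map_zero _ (map_zero _)
    rw [k0map_k0 _ _ hP0 (by rw [h2]; exact hPP)] at h1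
    have h3 : ∀ (Q : Matrix (κ ⊕ κ) (κ ⊕ κ) C(UnitAddCircle, C(X, ℂ))) (hQ : Q * Q = Q), Q = P →
        k0 Q hQ = k0 P hPP := by
      rintro Q hQ rfl
      rfl
    rw [h3 _ _ h2] at h1
    exact h1
  have hkey : de (dl (k1 (v * vP⁻¹))) = d0 z := by
    rw [(hK1M C(UnitAddCircle, A) (κ ⊕ κ) v vP⁻¹).1, (hK1M C(UnitAddCircle, A) (κ ⊕ κ) vP vP).2.1, map_add, map_neg,
      hdlv, hdlP, map_add, map_neg, hdeP, hdeE hYD.idem de hde, hg, neg_zero, add_zero]
  -- Bott for AY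
  have hcomp : CompleteSpace AY := hO.closed.completeSpace_coe
  obtain ⟨be', d', hbe', -, -, -, hdec⟩ := hBOT AY
  set a := k1map (el AY).toRingHom (el_cont AY) (k1 y) with ha
  set b := d' (k1 y) with hb
  have hcc1 : Continuous (cmpC UnitAddCircle AY.val hcv).toRingHom :=
    ContinuousMap.continuous_postcomp ⟨_, hcv⟩
  have hdy := hdec (k1 y)
  have hdy2 := congrArg (k1map (cmpC UnitAddCircle AY.val hcv).toRingHom hcc1) hdy
  rw [k1map_k1, hy, map_add, hBEN.1 AY A AY.val hcv be' be hcc1 hbe' hbe] at hdy2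
  have hcv' : Continuous AY.val.toRingHom := hcv
  have hcomm : k1map (cmpC UnitAddCircle AY.val hcv).toRingHom hcc1 (k1map (cl AY).toRingHom (cl_cont AY) a) =
      k1map (cl A).toRingHom (cl_cont A) (k1map AY.val.toRingHom hcv' a) := by
    have hr : (cmpC UnitAddCircle AY.val hcv).toRingHom.comp (cl AY).toRingHom =
        (cl A).toRingHom.comp AY.val.toRingHom := by
      ext x t
      rfl
    have hc1 : Continuous ((cmpC UnitAddCircle AY.val hcv).toRingHom.comp (cl AY).toRingHom) :=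
      hcc1.comp (cl_cont AY)
    have hc2 : Continuous ((cl A).toRingHom.comp AY.val.toRingHom) := (cl_cont A).comp hcv'
    rw [← hFUN.2.2.2.2 AY C(UnitAddCircle, AY) C(UnitAddCircle, A) (cl AY).toRingHom
      (cmpC UnitAddCircle AY.val hcv).toRingHom (cl_cont AY) hcc1 hc1 a,
      ← hFUN.2.2.2.2 AY A C(UnitAddCircle, A) AY.val.toRingHom (cl A).toRingHom hcv' (cl_cont A) hc2 a]
    congr 1
  rw [hcomm] at hdy2
  have hZM : ZMap (alC α) ι.toAlgHom (Unitary.toUnits u) (lal (alC α) h h') (cmpC UnitAddCircle ι.toAlgHom hi)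
      (lu (Unitary.toUnits u)) (cl C(X, ℂ)) (cl A) :=
    ⟨cl_cont C(X, ℂ), cl_cont A, fun b => rfl, fun b => rfl, rfl⟩
  have hcst : de (dl (k1map (cl A).toRingHom (cl_cont A) (k1map AY.val.toRingHom hcv' a))) = 0 := by
    rw [← hD1N _ _ _ _ _ _ _ _ _ _ _ _ (cl C(X, ℂ)) (cl A) (cl_cont A) hZP hZL hZM d1 dl hd1 hdl]
    exact hHON.2 C(X, ℂ) de hde _
  have hfin : d0 (k0map AY.val.toRingHom b) = d0 z := by
    rw [hd0z (k0map AY.val.toRingHom b), ← hkey, hdy2, map_add, map_add, hcst, zero_add]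
  have hdiff : d0 (z - k0map AY.val.toRingHom b) = 0 := by
    rw [map_sub, hfin, sub_self]
  obtain ⟨w, hw⟩ := (e2 _).1 hdiff
  -- factor through AY
  let j : C(X, ℂ) →+* AY :=
    { toFun := fun f => ⟨ι f, hO.fn f⟩
      map_one' := Subtype.ext (map_one ι)
      map_mul' := fun f f' => Subtype.ext (map_mul ι f f')
      map_zero' := Subtype.ext (map_zero ι)
      map_add' := fun f f' => Subtype.ext (map_add ι f f') }
  have hj : AY.val.toRingHom.comp j = ι.toAlgHom.toRingHom := by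
    ext f
    rfl
  refine ⟨b + k0map j w, ?_⟩
  rw [map_add, ← hFUN.2.1, hj, ← hw]
  abel

end Pool.Agent.BND
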