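import Pool.Agent.helper53.BND.SpecL

/-!
# Project bnd (MP_376aaf_an), row bnd:LK1: `K₁(A) = ℤ` for the band systems with `IsB1`
-/

set_option autoImplicit false

open scoped Topology Matrix
open Filter Finset

namespace Pool.Agent.BND

open Pool.Agent.CZ Pool.Agent.PV

/-- The class of an idempotent matrix over `Fin n` as a class `k0`. -/
theorem LK1_cls {A : Type} [Ring A] (p : IdemMat A) : cls p = k0 p.e p.idem := by
  let σ := Fintype.equivFin (Fin p.n)
  have h : cls p - k0 p.e p.idem = 0 := by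
    change QuotientAddGroup.mk (FreeAbelianGroup.of p - FreeAbelianGroup.of _) = (0 : K0 A)
    rw [QuotientAddGroup.eq_zero_iff]
    refine AddSubgroup.subset_closure (Or.inl ⟨p, _, ⟨p.e.submatrix id σ.symm,
      p.e.submatrix σ.symm id, ?_, ?_⟩, rfl⟩)
    · rw [Matrix.submatrix_mul_equiv, p.idem, Matrix.submatrix_id_id]
    · change p.e.submatrix σ.symm (Equiv.refl _) * p.e.submatrix (Equiv.refl _) σ.symm = _
      rw [Matrix.submatrix_mul_equiv, p.idem]
  exact sub_eq_zero.1 h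

theorem LK1_ind {A : Type} [Ring A] (P : K0 A → Prop) (h0 : P 0) (hc : ∀ p, P (cls p))
    (hn : ∀ z, P z → P (-z)) (ha : ∀ z w, P z → P w → P (z + w)) (z : K0 A) : P z := by
  induction z using QuotientAddGroup.induction_on with
  | H w =>
    induction w using FreeAbelianGroup.induction_on with
    | zero => exact h0
    | of p => exact hc p
    | neg p hp => exact hn _ (hc p)
    | add x y hx hy => exact ha _ _ hx hy

theorem LK1_zpow {X : Type} [TopologicalSpace X] (α : X ≃ₜ X) (f : X → ℤ) (h : ∀ x, f (α x) = f x) :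
    ∀ (n : ℤ) (x : X), f ((α ^ n) x) = f x := by
  intro n
  induction n with
  | zero => intro x; rw [zpow_zero]; rfl
  | succ n ih =>
    intro x
    rw [zpow_add_one]
    have e : (α ^ (n : ℤ) * α) x = (α ^ (n : ℤ)) (α x) := rfl
    rw [e, ih, h]
  | pred n ih =>
    intro x
    have e : (α ^ (-(n : ℤ))) x = (α ^ (-(n : ℤ) - 1)) (α x) := by
      have e1 : (α ^ (-(n : ℤ) - 1) * α) x = (α ^ (-(n : ℤ) - 1)) (α x) := rfl
      rw [← e1, ← zpow_add_one, sub_add_cancel]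
    have e2 : f ((α ^ (-(n : ℤ) - 1)) x) = f ((α ^ (-(n : ℤ) - 1)) (α (α.symm x))) := by
      rw [Homeomorph.apply_symm_apply]
    have e3 : (α ^ (-(n : ℤ))) (α.symm x) = (α ^ (-(n : ℤ) - 1)) (α (α.symm x)) := by
      have e1 : (α ^ (-(n : ℤ) - 1) * α) (α.symm x) = (α ^ (-(n : ℤ) - 1)) (α (α.symm x)) := rfl
      rw [← e1, ← zpow_add_one, sub_add_cancel]
    rw [e2, ← e3, ih, ← h (α.symm x), Homeomorph.apply_symm_apply]

theorem LK1 (hLI0 : LI0_stmt) (hLR0 : LR0_stmt) (hMIN : MIN_stmt) (hRNK : RNK_stmt) (hPVS : PVS_stmt) (hDZP : DZP_stmt) (hFUN : FUN_stmt) (hXSU : XSU_stmt) : LK1_stmt := by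
  have _ := hFUN
  intro B M _ α A _ ι u c hC Gs hG
  obtain ⟨R, hR⟩ := hRNK ↥(XS B)
  have hinjR := hLR0 B M hC.bs R hR
  have hZ := hDZP ↥(XS B) α A ι u c hC.cov
  have hi : Continuous ι.toAlgHom.toRingHom :=
    AddMonoidHomClass.continuous_of_bound ι.toAlgHom.toRingHom 1 fun f => by
      rw [one_mul]
      exact (hZ.isoA f).le
  have ha : Continuous (alC α : C(↥(XS B), ℂ) →ₐ[ℂ] C(↥(XS B), ℂ)).toRingHom :=
    AddMonoidHomClass.continuous_of_bound (alC α : C(↥(XS B), ℂ) →ₐ[ℂ] C(↥(XS B), ℂ)).toRingHom 1 fun f => by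
      rw [one_mul]
      exact (hZ.isoB f).le
  obtain ⟨d1, d0, -, -, -, -, -, -, hk1, hr1, hd1⟩ := hPVS C(↥(XS B), ℂ) A (alC α) ι.toAlgHom
    (Unitary.toUnits u) c hi ha hZ
  -- naturality of the rank
  have hnat : ∀ (z : K0 C(↥(XS B), ℂ)) (x : ↥(XS B)), R (k0a (alC α) z) x = R z (α.symm x) := by
    intro z
    refine LK1_ind (fun z => ∀ x : ↥(XS B), R (k0a (alC α) z) x = R z (α.symm x)) ?_ ?_ ?_ ?_ z
    · intro x
      rw [map_zero, map_zero]
      rfl
    · intro p x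
      have h1 : k0a (alC α) (cls p) = cls (imap (alC α : C(↥(XS B), ℂ) →ₐ[ℂ] C(↥(XS B), ℂ)).toRingHom p) := rfl
      have h2 : ((R (cls (imap (alC α : C(↥(XS B), ℂ) →ₐ[ℂ] C(↥(XS B), ℂ)).toRingHom p)) x : ℤ) : ℂ) =
          ((R (cls p) (α.symm x) : ℤ) : ℂ) := by
        rw [LK1_cls, LK1_cls, hR, hR]
        rfl
      rw [h1]
      exact_mod_cast h2
    · intro z hz x
      rw [map_neg, map_neg, map_neg, ContinuousMap.neg_apply, ContinuousMap.neg_apply, hz]
    · intro z w hz hw x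
      rw [map_add, map_add, map_add, ContinuousMap.add_apply, ContinuousMap.add_apply, hz, hw]
  -- a point
  have hlv := hC.bs.lv 0
  obtain ⟨x₀, -⟩ : ∃ x : ↥(XS B), x.1 0 = emb (B.L 0) 0 0 0 := by
    have h0 := lt_of_lt_of_le hlv.n0 hlv.nN
    exact hXSU B M hC.bs 0 _ ⟨0, 0, 0, h0, ⟨le_rfl, zero_le_one⟩, hlv.pos 0 h0, rfl⟩
  have hcon : ∀ f : C(↥(XS B), ℤ), (∀ x, f (α x) = f x) → ∀ x, f x = f x₀ := by
    intro f hf
    have hd : Dense (Set.range (fun n : ℤ => (α ^ n) x₀)) := hMIN B M hC.bs α hC.al hC.ali x₀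
    have h1 : Set.EqOn f (fun _ => f x₀) (Set.range (fun n : ℤ => (α ^ n) x₀)) := by
      rintro _ ⟨n, rfl⟩
      exact LK1_zpow α f hf n x₀
    have h2 := Continuous.ext_on hd f.continuous continuous_const h1
    exact fun x => congrFun h2 x
  let ev : C(↥(XS B), ℤ) →+ ℤ := { toFun := fun f => f x₀, map_zero' := rfl, map_add' := fun _ _ => rfl }
  let F : K1 A →+ ℤ := ev.comp (R.comp d1)
  have hF : ∀ y, F y = R (d1 y) x₀ := fun _ => rfl
  have hinj : Function.Injective F := by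
    rw [injective_iff_map_eq_zero]
    intro y hy
    have h1 : k0a (alC α) (d1 y) = d1 y := (hr1 _).2 ⟨y, rfl⟩
    have hn := hcon (R (d1 y)) (by
      intro x
      have h2 := hnat (d1 y) (α x)
      rw [h1, Homeomorph.symm_apply_apply] at h2
      exact h2)
    have h2 : R (d1 y) = 0 := by
      ext x
      rw [hn x, ← hF, hy]
      rfl
    have h3 : d1 y = 0 := hinjR _ h2
    obtain ⟨w, rfl⟩ := (hk1 y).1 h3
    exact hLI0 B M α A ι u c hC Gs hG hi w
  have hone : R (unitCls C(↥(XS B), ℂ)) x₀ = 1 := by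
    have h1 : ((R (unitCls C(↥(XS B), ℂ)) x₀ : ℤ) : ℂ) = 1 := by
      rw [unitCls, LK1_cls, hR]
      simp
    exact_mod_cast h1
  have hsur : Function.Surjective F := by
    intro n
    refine ⟨n • k1 (uM Unit (Unitary.toUnits u)), ?_⟩
    rw [map_zsmul, hF, hd1, hone]
    simp
  exact ⟨AddEquiv.ofBijective F ⟨hinj, hsur⟩⟩

end Pool.Agent.BND
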